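import Pool.Agent.Q252.CoDiag3

/-!
# MP_7165d8_gt: a non-Lindelöf `T₁` space whose co-diagonal is discretely Lindelöf

In ZFC there is a `T₁` space `X` which is not Lindelöf, such that the co-diagonal of `X` is
discretely Lindelöf. The Lindelöf number of `X` can be made as large as we like.
-/

set_option autoImplicit false

open Set Topology Cardinal Filter

namespace Pool.Agent.Results.MP_7165d8_gt.CoDiagonal

open Pool.Agent.H960R3.DL Pool.Agent.Q252.CoDiag

/-- For every cardinal `μ` there is a `T₁` space `X` such that in the co-diagonal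
`{(x, y) : x ≠ y}`, with the subspace topology from `X × X`, the closure of every discrete subset is
Lindelöf, but `X` is not Lindelöf, and `X` even has an open cover without a subcover of cardinality
at most `μ`. -/
theorem result (μ : Cardinal.{0}) :
    ∃ (X : Type) (_ : TopologicalSpace X), T1Space X ∧
      (∀ D : Set {p : X × X // p.1 ≠ p.2}, DiscreteTopology D → LindelofSpace (closure D)) ∧
      ¬ LindelofSpace X ∧
      ∃ 𝒰 : Set (Set X), (∀ U ∈ 𝒰, IsOpen U) ∧ ⋃₀ 𝒰 = Set.univ ∧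
        ∀ 𝒱 ⊆ 𝒰, #𝒱 ≤ μ → ⋃₀ 𝒱 ≠ Set.univ := by
  obtain ⟨L, i1, i2, hL, hLμ⟩ :=
    Pool.Agent.Results.MP_8c175f_gt.LargeWeakLindelofNumber.exists_L' (max μ ℵ₀)
  obtain ⟨δ, G, hG, hU⟩ := exists_G hL
  have hL1 : ∀ n (a : L n), ∃ b, a < b := by
    intro n a
    obtain ⟨b, hb⟩ := hLμ n {a} (by
      rw [mk_singleton]
      exact (one_lt_aleph0.le).trans (le_max_right _ _))
    exact ⟨b, hb a rfl⟩
  obtain ⟨𝒰, h1, h2, h3⟩ := cover (δ := δ) (G := G) (max μ ℵ₀) hU hL1 hLμ
  refine ⟨Qt δ G, inferInstance, inferInstance, ?_, ?_, 𝒰, h1, h2,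
    fun 𝒱 h4 h5 => h3 𝒱 h4 (h5.trans (le_max_left _ _))⟩
  · intro D hD
    exact isLindelof_iff_lindelofSpace.1 (closure_lindelof hL hG hU D hD)
  · intro hX
    obtain ⟨V, hV1, hV2, hV3⟩ := cov_of_lindelof (isLindelof_univ_iff.2 hX) h1 (by rw [h2])
    exact h3 V hV1 ((le_aleph0_iff_set_countable.2 hV2).trans (le_max_right _ _))
      (univ_subset_iff.1 hV3)

end Pool.Agent.Results.MP_7165d8_gt.CoDiagonal
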